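import Pool.Agent.W349.NM.Model

set_option autoImplicit false
open Filter Topology Set Finset

namespace Pool.Agent.W349.NM.MOM

open Pool.Agent.W261.NM Pool.Agent.W349.NM

open Classical in
/-- indicator of the block `w` at the place `q` -/
noncomputable def g {l : ℕ} (w : Fin l → ℤ) (q : ℕ) (ω : ℕ → ℤ) : ℝ :=
  if ∀ i : Fin l, ω (q + i) = w i then 1 else 0

open Classical in
/-- indicator of several blocks -/
noncomputable def gT {l n : ℕ} (w : Fin l → ℤ) (κ : Fin n → ℕ) (T : Finset (Fin n)) (ω : ℕ → ℤ) : ℝ :=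
  if ∀ x : T × Fin l, ω (κ x.1 + x.2) = w x.2 then 1 else 0

theorem gT_eq {l n : ℕ} (w : Fin l → ℤ) (κ : Fin n → ℕ) (T : Finset (Fin n)) (ω : ℕ → ℤ) :
    ∏ j ∈ T, g w (κ j) ω = gT w κ T ω := by
  classical
  unfold gT
  by_cases h : ∀ x : T × Fin l, ω (κ x.1 + x.2) = w x.2
  · rw [if_pos h]
    apply Finset.prod_eq_one
    intro j hj
    unfold g
    rw [if_pos]
    intro i
    exact h (⟨j, hj⟩, i)
  · rw [if_neg h]
    push Not at h
    obtain ⟨⟨⟨j, hj⟩, i⟩, hx⟩ := h
    apply Finset.prod_eq_zero hj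
    unfold g
    rw [if_neg]
    intro h2
    exact hx (h2 i)

theorem occ_eq (b : ℕ) {l : ℕ} (w : Fin l → ℤ) (y : ℝ) (K' : ℕ) :
    (occ b w y K' : ℝ) = ∑ q ∈ Finset.range K', g w q (fun k => dig b y (k + 1)) := by
  classical
  unfold occ g
  rw [Finset.sum_boole]
  congr 2
  apply Finset.filter_congr
  intro q _
  constructor
  · intro h i
    have h1 : dig b y (q + 1 + i) = w i := h i
    rw [add_right_comm] at h1
    exact h1
  · intro h i
    have h1 : dig b y (q + i + 1) = w i := h i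
    rw [add_right_comm] at h1
    exact h1

/-- difference of the two averages -/
noncomputable def D (b N K' : ℕ) (y : ℕ → ℝ) (F : (ℕ → ℤ) → ℝ) : ℝ :=
  (∑ m ∈ Finset.range N, F (fun k => dig b (y m) (k + 1))) / N -
    (∑ v : Fin K' → Fin b, F (wd v)) / (b : ℝ) ^ K'

theorem D_sum (b N K' : ℕ) (y : ℕ → ℝ) {ι : Type} (s : Finset ι) (F : ι → (ℕ → ℤ) → ℝ) :
    D b N K' y (fun ω => ∑ i ∈ s, F i ω) = ∑ i ∈ s, D b N K' y (F i) := by
  unfold D
  rw [Finset.sum_sub_distrib, Finset.sum_comm, ← Finset.sum_div, Finset.sum_comm (s := Finset.univ),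
    ← Finset.sum_div]

theorem D_mul (b N K' : ℕ) (y : ℕ → ℝ) (c : ℝ) (F : (ℕ → ℤ) → ℝ) :
    D b N K' y (fun ω => c * F ω) = c * D b N K' y F := by
  unfold D
  rw [← Finset.mul_sum, ← Finset.mul_sum, mul_sub, mul_div_assoc, mul_div_assoc]

theorem D_gT {b s N K K' l n : ℕ} {E : ℝ} {y : ℕ → ℝ} (h : Ind b s N K E y)
    (hK : K' ≤ K) (hb : 1 ≤ b) (hE : 0 ≤ E) (hN : 1 ≤ N) (hs : n * l ≤ s) (w : Fin l → ℤ)
    (hw : ∀ i, 0 ≤ w i ∧ w i < b) (κ : Fin n → ℕ) (hκ : ∀ j, κ j + l ≤ K') (T : Finset (Fin n)) :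
    |D b N K' y (gT w κ T)| ≤ E := by
  classical
  have hcard : Fintype.card (T × Fin l) ≤ s := by
    rw [Fintype.card_prod, Fintype.card_coe, Fintype.card_fin]
    refine le_trans (Nat.mul_le_mul_right l ?_) hs
    have := Finset.card_le_univ T
    rwa [Fintype.card_fin] at this
  have h1 := cmp h hK hb hE hN hcard (fun x : T × Fin l => κ x.1 + x.2) (by
    intro x
    have := hκ x.1
    have := x.2.2
    omega) (fun x => w x.2) (fun x => hw x.2)
  unfold D gT
  rw [Finset.sum_boole, Finset.sum_boole]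
  convert h1 using 9

theorem expand {l : ℕ} (n K' : ℕ) (p : ℝ) (w : Fin l → ℤ) (ω : ℕ → ℤ) :
    (∑ q ∈ Finset.range K', (g w q ω - p)) ^ n =
      ∑ κ ∈ Fintype.piFinset (fun _ : Fin n => Finset.range K'),
        ∑ T ∈ (Finset.univ : Finset (Fin n)).powerset,
          (∏ _j ∈ (Finset.univ : Finset (Fin n)) \ T, (-p)) * gT w κ T ω := by
  classical
  have h1 : (∑ q ∈ Finset.range K', (g w q ω - p)) ^ n =
      ∏ _j : Fin n, ∑ q ∈ Finset.range K', (g w q ω - p) := by
    rw [Finset.prod_const, Finset.card_univ, Fintype.card_fin]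
  rw [h1, Finset.prod_univ_sum]
  apply Finset.sum_congr rfl
  intro κ _
  simp_rw [sub_eq_add_neg]
  rw [Finset.prod_add]
  apply Finset.sum_congr rfl
  intro T _
  rw [gT_eq, mul_comm]

theorem D_pow {b s N K K' K'' l n : ℕ} {E : ℝ} {y : ℕ → ℝ} (h : Ind b s N K E y)
    (hK : K'' ≤ K) (hb : 1 ≤ b) (hE : 0 ≤ E) (hN : 1 ≤ N) (hs : n * l ≤ s) (w : Fin l → ℤ)
    (hw : ∀ i, 0 ≤ w i ∧ w i < b) (hK' : K' + l ≤ K'' + 1) (p : ℝ) (hp0 : 0 ≤ p) (hp1 : p ≤ 1) :
    |D b N K'' y (fun ω => (∑ q ∈ Finset.range K', (g w q ω - p)) ^ n)| ≤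
      (K' : ℝ) ^ n * 2 ^ n * E := by
  classical
  simp_rw [expand]
  rw [D_sum]
  simp_rw [D_sum, D_mul]
  refine (Finset.abs_sum_le_sum_abs _ _).trans ?_
  have h1 : ∀ κ ∈ Fintype.piFinset (fun _ : Fin n => Finset.range K'),
      |∑ T ∈ (Finset.univ : Finset (Fin n)).powerset,
        (∏ _j ∈ (Finset.univ : Finset (Fin n)) \ T, (-p)) * D b N K'' y (gT w κ T)| ≤ 2 ^ n * E := by
    intro κ hκ
    rw [Fintype.mem_piFinset] at hκ
    refine (Finset.abs_sum_le_sum_abs _ _).trans ?_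
    have h2 : ∀ T ∈ (Finset.univ : Finset (Fin n)).powerset,
        |(∏ _j ∈ (Finset.univ : Finset (Fin n)) \ T, (-p)) * D b N K'' y (gT w κ T)| ≤ E := by
      intro T _
      rw [abs_mul, Finset.prod_const, abs_pow, abs_neg, abs_of_nonneg hp0]
      have h3 := D_gT h hK hb hE hN hs w hw κ (by
        intro j
        have := hκ j
        rw [Finset.mem_range] at this
        omega) T
      calc p ^ _ * |D b N K'' y (gT w κ T)| ≤ 1 * E :=
            mul_le_mul (pow_le_one₀ hp0 hp1) h3 (abs_nonneg _) zero_le_one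
        _ = E := one_mul _
    refine (Finset.sum_le_card_nsmul _ _ _ h2).trans ?_
    rw [Finset.card_powerset, Finset.card_univ, Fintype.card_fin, nsmul_eq_mul]
    push_cast
    exact le_rfl
  refine (Finset.sum_le_card_nsmul _ _ _ h1).trans ?_
  rw [Fintype.card_piFinset, Finset.prod_const, Finset.card_range, Finset.card_univ,
    Fintype.card_fin, nsmul_eq_mul]
  push_cast
  rw [mul_assoc]

open Classical in
theorem avg_g {b K'' l : ℕ} (hb : 1 ≤ b) (w : Fin l → ℤ) (hw : ∀ i, 0 ≤ w i ∧ w i < b) (q : ℕ)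
    (hq : q + l ≤ K'') : avg (fun v : Fin K'' → Fin b => g w q (wd v)) = 1 / (b : ℝ) ^ l := by
  have hb' : (0 : ℝ) < b := by exact_mod_cast hb
  set P : Finset ℕ := (Finset.range l).image (fun i => q + i) with hP
  have hPc : P.card = l := by
    rw [hP, Finset.card_image_of_injective _ (fun i j hij => by simpa using hij), Finset.card_range]
  set c : ℕ → ℤ := fun k => if hk : k - q < l then w ⟨k - q, hk⟩ else 0 with hc
  have hck : ∀ i : Fin l, c (q + i) = w i := by
    intro i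
    simp only [hc]
    have e1 : q + (i : ℕ) - q = i := by omega
    rw [dif_pos (by rw [e1]; exact i.2)]
    congr 1
    exact Fin.ext e1
  have h1 := model_P (K := K'') hb P (by
    intro k hk
    obtain ⟨i, hi, rfl⟩ := Finset.mem_image.1 hk
    rw [Finset.mem_range] at hi
    omega) c (by
    intro k hk
    obtain ⟨i, hi, rfl⟩ := Finset.mem_image.1 hk
    rw [Finset.mem_range] at hi
    rw [hck ⟨i, hi⟩]
    exact hw _)
  unfold avg g
  rw [Finset.sum_boole]
  have h2 : (Finset.univ : Finset (Fin K'' → Fin b)).filter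
      (fun v => ∀ i : Fin l, wd v (q + i) = w i) =
      (Finset.univ : Finset (Fin K'' → Fin b)).filter (fun v => ∀ k ∈ P, wd v k = c k) := by
    apply Finset.filter_congr
    intro v _
    constructor
    · intro h3 k hk
      obtain ⟨i, hi, rfl⟩ := Finset.mem_image.1 hk
      rw [Finset.mem_range] at hi
      rw [hck ⟨i, hi⟩]
      exact h3 ⟨i, hi⟩
    · intro h3 i
      rw [← hck]
      exact h3 _ (Finset.mem_image.2 ⟨i, Finset.mem_range.2 i.2, rfl⟩)
  rw [h2, h1, hPc]
  field_simp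

theorem diff_bound {b K'' l : ℕ} (w : Fin l → ℤ) (K' : ℕ) (v v' : Fin K'' → Fin b) (i : Fin K'')
    (hvv : ∀ j, j ≠ i → v j = v' j) :
    |∑ q ∈ Finset.range K', g w q (wd v) - ∑ q ∈ Finset.range K', g w q (wd v')| ≤ l := by
  classical
  rw [← Finset.sum_sub_distrib]
  refine (Finset.abs_sum_le_sum_abs _ _).trans ?_
  have h1 : ∀ q ∈ Finset.range K', |g w q (wd v) - g w q (wd v')| ≤
      if q ≤ (i : ℕ) ∧ (i : ℕ) < q + l then (1 : ℝ) else 0 := by
    intro q _
    by_cases hq : q ≤ (i : ℕ) ∧ (i : ℕ) < q + l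
    · rw [if_pos hq]
      unfold g
      split_ifs <;> simp
    · rw [if_neg hq]
      have h2 : ∀ j : Fin l, wd v (q + j) = wd v' (q + j) := by
        intro j
        unfold wd
        split_ifs with hj
        · rw [hvv]
          intro h3
          apply hq
          have h4 := congrArg Fin.val h3
          simp only at h4
          have := j.2
          omega
        · rfl
      have h3 : g w q (wd v) = g w q (wd v') := by
        unfold g
        simp only [h2]
      rw [h3, sub_self, abs_zero]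
  refine (Finset.sum_le_sum h1).trans ?_
  rw [Finset.sum_boole]
  have h2 : ((Finset.range K').filter (fun q => q ≤ (i : ℕ) ∧ (i : ℕ) < q + l)) ⊆
      Finset.Icc ((i : ℕ) + 1 - l) i := by
    intro q hq
    rw [Finset.mem_filter] at hq
    rw [Finset.mem_Icc]
    omega
  have h3 := Finset.card_le_card h2
  rw [Nat.card_Icc] at h3
  have h4 : ((Finset.range K').filter (fun q => q ≤ (i : ℕ) ∧ (i : ℕ) < q + l)).card ≤ l := by omega
  exact_mod_cast h4

theorem main : S_mom := by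
  intro l r
  set C : ℝ := 2 * (Nat.factorial (2 * r)) * Real.exp (1 / 2) * ((l : ℝ) ^ 3) ^ r + 2 ^ (2 * r) + 1
    with hC
  have hC1 : 1 ≤ C := by
    rw [hC]
    have h1 : (0 : ℝ) ≤ 2 * (Nat.factorial (2 * r)) * Real.exp (1 / 2) * ((l : ℝ) ^ 3) ^ r := by
      positivity
    have h2 : (0 : ℝ) ≤ 2 ^ (2 * r) := by positivity
    linarith
  refine ⟨C, by linarith, ?_⟩
  intro b hb N K hN E hE y hInd w hw K' hK' hKK
  have hb1 : 1 ≤ b := by omega
  have hb' : (0 : ℝ) < b := by exact_mod_cast hb1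
  have hN' : (0 : ℝ) < N := by exact_mod_cast hN
  have hK1 : (1 : ℝ) ≤ K' := by exact_mod_cast hK'
  have hKr : (1 : ℝ) ≤ (K' : ℝ) ^ r := one_le_pow₀ hK1
  have hKE : (0 : ℝ) ≤ (K' : ℝ) ^ (2 * r) * E := by positivity
  rcases Nat.eq_zero_or_pos l with hl | hl
  · subst hl
    have h1 : ∀ m ∈ Finset.range N,
        ((occ b w (y m) K' : ℝ) - (K' : ℝ) / (b : ℝ) ^ 0) ^ (2 * r) ≤ 1 := by
      intro m _
      have h2 : occ b w (y m) K' = K' := by
        unfold occ
        rw [Finset.filter_true_of_mem, Finset.card_range]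
        intro k _ i
        exact i.elim0
      rw [h2, pow_zero, div_one, sub_self]
      exact pow_le_one₀ le_rfl zero_le_one
    refine (Finset.sum_le_sum h1).trans ?_
    rw [Finset.sum_const, Finset.card_range, nsmul_eq_mul, mul_one]
    have h3 : (1 : ℝ) ≤ C * ((K' : ℝ) ^ r + (K' : ℝ) ^ (2 * r) * E) := by nlinarith
    calc (N : ℝ) = N * 1 := (mul_one _).symm
      _ ≤ N * (C * ((K' : ℝ) ^ r + (K' : ℝ) ^ (2 * r) * E)) := mul_le_mul_of_nonneg_left h3 hN'.le
      _ = _ := by ring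
  · set K'' : ℕ := K' + l - 1 with hK''
    have hK''K : K'' ≤ K := by omega
    have hK''1 : 1 ≤ K'' := by omega
    set p : ℝ := 1 / (b : ℝ) ^ l with hp
    have hp0 : 0 ≤ p := by positivity
    have hp1 : p ≤ 1 := by
      rw [hp, div_le_one (by positivity)]
      exact one_le_pow₀ (by exact_mod_cast hb1)
    have hterm : ∀ m, (occ b w (y m) K' : ℝ) - (K' : ℝ) / (b : ℝ) ^ l =
        ∑ q ∈ Finset.range K', (g w q (fun k => dig b (y m) (k + 1)) - p) := by
      intro m
      rw [Finset.sum_sub_distrib, ← occ_eq, Finset.sum_const, Finset.card_range, nsmul_eq_mul, hp]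
      ring
    simp_rw [hterm]
    have hD := D_pow (n := 2 * r) (K' := K') hInd hK''K hb1 hE hN le_rfl w hw (by omega) p hp0 hp1
    -- the model
    set F : (Fin K'' → Fin b) → ℝ := fun v => ∑ q ∈ Finset.range K', g w q (wd v) with hF
    have havg : avg F = K' * p := by
      have h1 : avg F = ∑ q ∈ Finset.range K', avg (fun v : Fin K'' → Fin b => g w q (wd v)) :=
        avg_sum (Finset.range K') (fun q (v : Fin K'' → Fin b) => g w q (wd v))
      rw [h1]
      have h2 : ∀ q ∈ Finset.range K', avg (fun v : Fin K'' → Fin b => g w q (wd v)) = p := by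
        intro q hq
        rw [Finset.mem_range] at hq
        exact avg_g hb1 w hw q (by omega)
      rw [Finset.sum_congr rfl h2, Finset.sum_const, Finset.card_range, nsmul_eq_mul]
    have hmom := moment b (by omega) l (by exact_mod_cast hl) K'' hK''1 F
      (fun v v' i hvv => diff_bound w K' v v' i hvv) r
    rw [havg] at hmom
    have hmodel : avg (fun v => (F v - K' * p) ^ (2 * r)) =
        (∑ v : Fin K'' → Fin b, (∑ q ∈ Finset.range K', (g w q (wd v) - p)) ^ (2 * r)) /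
          (b : ℝ) ^ K'' := by
      unfold avg
      congr 1
      apply Finset.sum_congr rfl
      intro v _
      congr 1
      rw [Finset.sum_sub_distrib, Finset.sum_const, Finset.card_range, nsmul_eq_mul]
    have hfin : (∑ m ∈ Finset.range N,
        (∑ q ∈ Finset.range K', (g w q (fun k => dig b (y m) (k + 1)) - p)) ^ (2 * r)) / N ≤
        2 * (Nat.factorial (2 * r)) * Real.exp (1 / 2) * ((l : ℝ) ^ 2 * K'') ^ r +
          (K' : ℝ) ^ (2 * r) * 2 ^ (2 * r) * E := by
      have h1 := (abs_le.1 hD).2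
      unfold D at h1
      rw [hmodel] at hmom
      linarith
    have hKK'' : ((l : ℝ) ^ 2 * K'') ^ r ≤ ((l : ℝ) ^ 3) ^ r * (K' : ℝ) ^ r := by
      rw [← mul_pow]
      apply pow_le_pow_left₀ (by positivity)
      have h1 : (K'' : ℝ) ≤ l * K' := by
        have : K'' ≤ l * K' := by
          obtain ⟨l', rfl⟩ : ∃ l', l = l' + 1 := ⟨l - 1, by omega⟩
          have h2 : K'' = K' + l' := by omega
          rw [h2]
          nlinarith
        exact_mod_cast this
      have hl0 : (0 : ℝ) ≤ (l : ℝ) ^ 2 := by positivity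
      nlinarith
    rw [div_le_iff₀ hN'] at hfin
    refine hfin.trans ?_
    have hA : (0 : ℝ) ≤ 2 * (Nat.factorial (2 * r)) * Real.exp (1 / 2) := by positivity
    have h3 : 2 * (Nat.factorial (2 * r)) * Real.exp (1 / 2) * ((l : ℝ) ^ 2 * K'') ^ r +
          (K' : ℝ) ^ (2 * r) * 2 ^ (2 * r) * E ≤ C * ((K' : ℝ) ^ r + (K' : ℝ) ^ (2 * r) * E) := by
      have h4 := mul_le_mul_of_nonneg_left hKK'' hA
      have h5 : (0 : ℝ) ≤ 2 ^ (2 * r) := by positivity
      have h6 : (0 : ℝ) ≤ 2 * (Nat.factorial (2 * r)) * Real.exp (1 / 2) * ((l : ℝ) ^ 3) ^ r := by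
        positivity
      rw [hC]
      have h7 : 0 ≤ (2 : ℝ) ^ (2 * r) * (K' : ℝ) ^ r := by positivity
      have h8 : 0 ≤ 2 * (Nat.factorial (2 * r)) * Real.exp (1 / 2) * ((l : ℝ) ^ 3) ^ r *
        ((K' : ℝ) ^ (2 * r) * E) := mul_nonneg h6 hKE
      have h9 : (2 * (Nat.factorial (2 * r)) * Real.exp (1 / 2) * ((l : ℝ) ^ 3) ^ r + 2 ^ (2 * r) + 1) *
          ((K' : ℝ) ^ r + (K' : ℝ) ^ (2 * r) * E) =
          2 * (Nat.factorial (2 * r)) * Real.exp (1 / 2) * (((l : ℝ) ^ 3) ^ r * (K' : ℝ) ^ r) +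
          2 * (Nat.factorial (2 * r)) * Real.exp (1 / 2) * ((l : ℝ) ^ 3) ^ r *
            ((K' : ℝ) ^ (2 * r) * E) + (2 : ℝ) ^ (2 * r) * (K' : ℝ) ^ r +
          (K' : ℝ) ^ (2 * r) * 2 ^ (2 * r) * E + (K' : ℝ) ^ r + (K' : ℝ) ^ (2 * r) * E := by ring
      rw [h9]
      linarith
    calc _ ≤ (C * ((K' : ℝ) ^ r + (K' : ℝ) ^ (2 * r) * E)) * N :=
          mul_le_mul_of_nonneg_right h3 hN'.le
      _ = _ := by ring

end Pool.Agent.W349.NM.MOM
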