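import Pool.Agent.W261.NM.Stm

set_option autoImplicit false
open Filter Topology Set Finset

namespace Pool.Agent.W349.NM

open Pool.Agent.W261.NM

/-! ### averages over words -/

/-- average over the words of length `K` -/
noncomputable def avg {b K : ℕ} (F : (Fin K → Fin b) → ℝ) : ℝ := (∑ v, F v) / (b : ℝ) ^ K

theorem avg_succ {b K : ℕ} (F : (Fin (K + 1) → Fin b) → ℝ) :
    avg F = avg (fun v : Fin K → Fin b => (∑ a : Fin b, F (Fin.cons a v)) / b) := by
  unfold avg
  have h1 : ∑ v : Fin (K + 1) → Fin b, F v = ∑ v : Fin K → Fin b, ∑ a : Fin b, F (Fin.cons a v) := by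
    rw [← (Fin.consEquiv (fun _ => Fin b)).sum_comp, Fintype.sum_prod_type, Finset.sum_comm]
    rfl
  rw [h1, ← Finset.sum_div, div_div, pow_succ, mul_comm (b : ℝ)]

theorem avg_mono {b K : ℕ} (F G : (Fin K → Fin b) → ℝ) (h : ∀ v, F v ≤ G v) : avg F ≤ avg G := by
  unfold avg
  apply div_le_div_of_nonneg_right (Finset.sum_le_sum fun v _ => h v) (by positivity)

theorem avg_const_mul {b K : ℕ} (c : ℝ) (F : (Fin K → Fin b) → ℝ) :
    avg (fun v => c * F v) = c * avg F := by
  unfold avg
  rw [← Finset.mul_sum, mul_div_assoc]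

theorem avg_add {b K : ℕ} (F G : (Fin K → Fin b) → ℝ) :
    avg (fun v => F v + G v) = avg F + avg G := by
  unfold avg
  rw [Finset.sum_add_distrib, add_div]

theorem avg_sum {b K : ℕ} {ι : Type} (s : Finset ι) (F : ι → (Fin K → Fin b) → ℝ) :
    avg (fun v => ∑ i ∈ s, F i v) = ∑ i ∈ s, avg (F i) := by
  unfold avg
  rw [Finset.sum_comm, Finset.sum_div]

theorem hoef (b : ℕ) (hb : 0 < b) (c : ℝ) (hc : 0 < c) (x : Fin b → ℝ) (h0 : ∑ a, x a = 0)
    (hx : ∀ a, |x a| ≤ c) (t : ℝ) : (∑ a, Real.exp (t * x a)) / b ≤ Real.exp ((t * c) ^ 2 / 2) := by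
  have h1 : ∀ a, Real.exp (t * x a) ≤ Real.cosh (t * c) + (x a / c) * Real.sinh (t * c) := by
    intro a
    have hxa := abs_le.1 (hx a)
    have h2 : -1 ≤ x a / c := by
      rw [le_div_iff₀ hc]
      linarith [hxa.1]
    have h3 : x a / c ≤ 1 := by
      rw [div_le_iff₀ hc]
      linarith [hxa.2]
    have h4 := convexOn_exp.2 (Set.mem_univ (t * c)) (Set.mem_univ (-(t * c)))
      (show (0 : ℝ) ≤ (1 + x a / c) / 2 by linarith) (show (0 : ℝ) ≤ (1 - x a / c) / 2 by linarith)
      (by ring)
    simp only [smul_eq_mul] at h4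
    have h5 : (1 + x a / c) / 2 * (t * c) + (1 - x a / c) / 2 * (-(t * c)) = t * x a := by
      field_simp
      ring
    rw [h5] at h4
    refine h4.trans (le_of_eq ?_)
    rw [Real.cosh_eq, Real.sinh_eq]
    ring
  have hb' : (0 : ℝ) < b := by exact_mod_cast hb
  have h2 : (∑ a, Real.exp (t * x a)) ≤ b * Real.cosh (t * c) := by
    refine (Finset.sum_le_sum fun a _ => h1 a).trans (le_of_eq ?_)
    rw [Finset.sum_add_distrib, ← Finset.sum_mul, ← Finset.sum_div, h0, zero_div, zero_mul, add_zero,
      Finset.sum_const, Finset.card_univ, Fintype.card_fin, nsmul_eq_mul]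
  calc (∑ a, Real.exp (t * x a)) / b ≤ (b * Real.cosh (t * c)) / b :=
        div_le_div_of_nonneg_right h2 hb'.le
    _ = Real.cosh (t * c) := by field_simp
    _ ≤ _ := Real.cosh_le_exp_half_sq _

theorem mcd (b : ℕ) (hb : 0 < b) (c : ℝ) (hc : 0 < c) (t : ℝ) : ∀ (K : ℕ)
    (F : (Fin K → Fin b) → ℝ),
    (∀ (v v' : Fin K → Fin b) (i : Fin K), (∀ j, j ≠ i → v j = v' j) → |F v - F v'| ≤ c) →
    avg (fun v => Real.exp (t * (F v - avg F))) ≤ Real.exp (K * ((t * c) ^ 2 / 2)) := by
  have hb' : (0 : ℝ) < b := by exact_mod_cast hb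
  intro K
  induction K with
  | zero =>
    intro F _
    have h1 : ∀ G : (Fin 0 → Fin b) → ℝ, avg G = G default := by
      intro G
      unfold avg
      rw [Fintype.sum_unique]
      simp
    rw [h1, h1]
    simp
  | succ K ih =>
    intro F hF
    set F1 : (Fin K → Fin b) → ℝ := fun v => (∑ a : Fin b, F (Fin.cons a v)) / b with hF1
    have hav : avg F = avg F1 := avg_succ F
    have hF1' : ∀ (v v' : Fin K → Fin b) (i : Fin K), (∀ j, j ≠ i → v j = v' j) →
        |F1 v - F1 v'| ≤ c := by
      intro v v' i hvv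
      simp only [hF1]
      rw [← sub_div, ← Finset.sum_sub_distrib, abs_div, abs_of_pos hb', div_le_iff₀ hb']
      refine (Finset.abs_sum_le_sum_abs _ _).trans ?_
      have h1 : ∀ a ∈ (Finset.univ : Finset (Fin b)),
          |F (Fin.cons a v) - F (Fin.cons a v')| ≤ c := by
        intro a _
        apply hF _ _ i.succ
        intro j hj
        refine Fin.cases ?_ ?_ j hj
        · intro _
          simp
        · intro j' hj'
          simp only [Fin.cons_succ]
          apply hvv
          intro h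
          exact hj' (by rw [h])
      refine (Finset.sum_le_card_nsmul _ _ _ h1).trans ?_
      rw [Finset.card_univ, Fintype.card_fin, nsmul_eq_mul, mul_comm]
    rw [avg_succ, hav]
    have h2 : ∀ v : Fin K → Fin b,
        (∑ a : Fin b, Real.exp (t * (F (Fin.cons a v) - avg F1))) / b ≤
          Real.exp ((t * c) ^ 2 / 2) * Real.exp (t * (F1 v - avg F1)) := by
      intro v
      have h3 : ∀ a, Real.exp (t * (F (Fin.cons a v) - avg F1)) =
          Real.exp (t * (F (Fin.cons a v) - F1 v)) * Real.exp (t * (F1 v - avg F1)) := by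
        intro a
        rw [← Real.exp_add]
        congr 1
        ring
      simp_rw [h3]
      rw [← Finset.sum_mul, mul_div_right_comm]
      apply mul_le_mul_of_nonneg_right _ (Real.exp_pos _).le
      apply hoef b hb c hc (fun a => F (Fin.cons a v) - F1 v)
      · rw [Finset.sum_sub_distrib, Finset.sum_const, Finset.card_univ, Fintype.card_fin,
          nsmul_eq_mul]
        simp only [hF1]
        field_simp
        ring
      · intro a
        have h4 : F (Fin.cons a v) - F1 v = (∑ a' : Fin b, (F (Fin.cons a v) - F (Fin.cons a' v))) / b := by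
          rw [Finset.sum_sub_distrib, Finset.sum_const, Finset.card_univ, Fintype.card_fin,
            nsmul_eq_mul]
          simp only [hF1]
          field_simp
        rw [h4, abs_div, abs_of_pos hb', div_le_iff₀ hb']
        refine (Finset.abs_sum_le_sum_abs _ _).trans ?_
        have h5 : ∀ a' ∈ (Finset.univ : Finset (Fin b)),
            |F (Fin.cons a v) - F (Fin.cons a' v)| ≤ c := by
          intro a' _
          apply hF _ _ 0
          intro j hj
          refine Fin.cases ?_ ?_ j hj
          · intro h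
            exact absurd rfl h
          · intro j' _
            simp only [Fin.cons_succ]
        refine (Finset.sum_le_card_nsmul _ _ _ h5).trans ?_
        rw [Finset.card_univ, Fintype.card_fin, nsmul_eq_mul, mul_comm]
    refine (avg_mono _ _ h2).trans ?_
    rw [avg_const_mul]
    refine (mul_le_mul_of_nonneg_left (ih F1 hF1') (Real.exp_pos _).le).trans (le_of_eq ?_)
    rw [← Real.exp_add]
    congr 1
    push_cast
    ring

/-- moments of functions with bounded differences -/
theorem moment (b : ℕ) (hb : 0 < b) (c : ℝ) (hc : 0 < c) (K : ℕ) (hK : 1 ≤ K)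
    (F : (Fin K → Fin b) → ℝ)
    (hF : ∀ (v v' : Fin K → Fin b) (i : Fin K), (∀ j, j ≠ i → v j = v' j) → |F v - F v'| ≤ c)
    (r : ℕ) : avg (fun v => (F v - avg F) ^ (2 * r)) ≤
      2 * (Nat.factorial (2 * r)) * Real.exp (1 / 2) * (c ^ 2 * K) ^ r := by
  have hK' : (0 : ℝ) < K := by exact_mod_cast hK
  set t : ℝ := 1 / (c * Real.sqrt K) with ht
  have hsq : Real.sqrt K ^ 2 = K := Real.sq_sqrt hK'.le
  have hs0 : 0 < Real.sqrt K := Real.sqrt_pos.2 hK'
  have ht0 : 0 < t := by positivity
  have htc : (K : ℝ) * ((t * c) ^ 2 / 2) = 1 / 2 := by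
    have h1 : (t * c) ^ 2 = 1 / K := by
      have h2 : t * c = 1 / Real.sqrt K := by
        rw [ht]
        field_simp
      rw [h2, div_pow, hsq, one_pow]
    rw [h1]
    field_simp
  have htc' : (K : ℝ) * ((-t * c) ^ 2 / 2) = 1 / 2 := by
    rw [← htc]
    ring
  have ht2 : (c ^ 2 * K) ^ r * t ^ (2 * r) = 1 := by
    rw [pow_mul, ← mul_pow]
    have h1 : c ^ 2 * K * t ^ 2 = 1 := by
      rw [ht]
      have : (K : ℝ) = Real.sqrt K ^ 2 := hsq.symm
      field_simp
      exact hsq.symm
    rw [h1, one_pow]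
  have h1 := mcd b hb c hc t K F hF
  have h2 := mcd b hb c hc (-t) K F hF
  rw [htc] at h1
  rw [htc'] at h2
  have hpt : ∀ v, (F v - avg F) ^ (2 * r) ≤ (Nat.factorial (2 * r)) * (c ^ 2 * K) ^ r *
      (Real.exp (t * (F v - avg F)) + Real.exp (-t * (F v - avg F))) := by
    intro v
    set u := F v - avg F with hu
    have h3 := Real.pow_div_factorial_le_exp (t * |u|) (by positivity) (2 * r)
    rw [mul_pow, pow_mul |u|, sq_abs, ← pow_mul, div_le_iff₀ (by positivity)] at h3
    have h4 : Real.exp (t * |u|) ≤ Real.exp (t * u) + Real.exp (-t * u) := by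
      rcases abs_cases u with ⟨h5, -⟩ | ⟨h5, -⟩
      · rw [h5]
        linarith [Real.exp_pos (-t * u)]
      · rw [h5]
        have : t * -u = -t * u := by ring
        rw [this]
        linarith [Real.exp_pos (t * u)]
    have h6 : u ^ (2 * r) = (c ^ 2 * K) ^ r * (t ^ (2 * r) * u ^ (2 * r)) := by
      rw [← mul_assoc, ht2, one_mul]
    rw [h6]
    have h7 : t ^ (2 * r) * u ^ (2 * r) ≤
        (Real.exp (t * u) + Real.exp (-t * u)) * (Nat.factorial (2 * r)) :=
      h3.trans (mul_le_mul_of_nonneg_right h4 (by positivity))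
    calc (c ^ 2 * K) ^ r * (t ^ (2 * r) * u ^ (2 * r)) ≤ (c ^ 2 * K) ^ r *
        ((Real.exp (t * u) + Real.exp (-t * u)) * (Nat.factorial (2 * r))) :=
          mul_le_mul_of_nonneg_left h7 (by positivity)
      _ = _ := by ring
  refine (avg_mono _ _ hpt).trans ?_
  rw [avg_const_mul, avg_add]
  have h8 : avg (fun v => Real.exp (t * (F v - avg F))) +
      avg (fun v => Real.exp (-t * (F v - avg F))) ≤ 2 * Real.exp (1 / 2) := by linarith
  calc _ ≤ (Nat.factorial (2 * r)) * (c ^ 2 * K) ^ r * (2 * Real.exp (1 / 2)) :=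
        mul_le_mul_of_nonneg_left h8 (by positivity)
    _ = _ := by ring

/-! ### prescribed digits -/

/-- the sequence of digits of a word -/
def wd {b K : ℕ} (v : Fin K → Fin b) (k : ℕ) : ℤ := if h : k < K then ((v ⟨k, h⟩ : ℕ) : ℤ) else 0

open Classical in
theorem ind_P {b s N K : ℕ} {E : ℝ} {y : ℕ → ℝ} (h : Ind b s N K E y) (P : Finset ℕ)
    (hP : P.card ≤ s) (hPK : ∀ k ∈ P, k < K) (c : ℕ → ℤ) (hc : ∀ k ∈ P, 0 ≤ c k ∧ c k < b) :
    |((((Finset.range N).filter (fun m => ∀ k ∈ P, dig b (y m) (k + 1) = c k)).card : ℕ) : ℝ)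
      - (N : ℝ) / (b : ℝ) ^ P.card| ≤ E * N := by
  have h1 := h P.card hP (fun i => (P.equivFin.symm i : ℕ) + 1) (by
    intro i j hij
    simp only [add_left_inj] at hij
    exact P.equivFin.symm.injective (Subtype.ext hij)) (by
    intro i
    have := hPK _ (P.equivFin.symm i).2
    omega) (fun i => c (P.equivFin.symm i)) (fun i => hc _ (P.equivFin.symm i).2)
  have h2 : (Finset.range N).filter (fun m => ∀ i : Fin P.card,
      dig b (y m) ((P.equivFin.symm i : ℕ) + 1) = c (P.equivFin.symm i)) =
      (Finset.range N).filter (fun m => ∀ k ∈ P, dig b (y m) (k + 1) = c k) := by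
    apply Finset.filter_congr
    intro m _
    constructor
    · intro h3 k hk
      have := h3 (P.equivFin ⟨k, hk⟩)
      simpa using this
    · intro h3 i
      exact h3 _ (P.equivFin.symm i).2
  rw [h2] at h1
  exact h1

open Classical in
theorem model_P {b K : ℕ} (hb : 1 ≤ b) (P : Finset ℕ) (hPK : ∀ k ∈ P, k < K) (c : ℕ → ℤ)
    (hc : ∀ k ∈ P, 0 ≤ c k ∧ c k < b) :
    ((((Finset.univ : Finset (Fin K → Fin b)).filter (fun v => ∀ k ∈ P, wd v k = c k)).card : ℕ) : ℝ)
      = (b : ℝ) ^ K / (b : ℝ) ^ P.card := by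
  have hb' : (0 : ℝ) < b := by exact_mod_cast hb
  have h1 : (Finset.univ : Finset (Fin K → Fin b)).filter (fun v => ∀ k ∈ P, wd v k = c k) =
      Fintype.piFinset (fun i : Fin K => if (i : ℕ) ∈ P then
        (Finset.univ : Finset (Fin b)).filter (fun a : Fin b => ((a : ℕ) : ℤ) = c (i : ℕ))
        else (Finset.univ : Finset (Fin b))) := by
    ext v
    rw [Finset.mem_filter, Fintype.mem_piFinset]
    constructor
    · rintro ⟨-, h2⟩ i
      by_cases hi : (i : ℕ) ∈ P
      · rw [if_pos hi, Finset.mem_filter]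
        refine ⟨Finset.mem_univ _, ?_⟩
        have := h2 i hi
        unfold wd at this
        rw [dif_pos i.2] at this
        exact this
      · rw [if_neg hi]
        exact Finset.mem_univ _
    · intro h2
      refine ⟨Finset.mem_univ _, ?_⟩
      intro k hk
      have h3 := h2 ⟨k, hPK k hk⟩
      rw [if_pos (show ((⟨k, hPK k hk⟩ : Fin K) : ℕ) ∈ P from hk), Finset.mem_filter] at h3
      unfold wd
      rw [dif_pos (hPK k hk)]
      exact h3.2
  rw [h1, Fintype.card_piFinset]
  have h2 : ∀ i : Fin K, (if (i : ℕ) ∈ P then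
        (Finset.univ : Finset (Fin b)).filter (fun a : Fin b => ((a : ℕ) : ℤ) = c (i : ℕ))
        else (Finset.univ : Finset (Fin b))).card =
      if (i : ℕ) ∈ P then 1 else b := by
    intro i
    by_cases hi : (i : ℕ) ∈ P
    · rw [if_pos hi, if_pos hi, Finset.card_eq_one]
      obtain ⟨h3, h4⟩ := hc i hi
      refine ⟨⟨(c i).toNat, by omega⟩, ?_⟩
      ext a
      rw [Finset.mem_filter, Finset.mem_singleton, Fin.ext_iff]
      constructor
      · rintro ⟨-, h5⟩
        simp only
        omega
      · intro h5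
        refine ⟨Finset.mem_univ _, ?_⟩
        simp only at h5
        omega
    · rw [if_neg hi, if_neg hi, Finset.card_univ, Fintype.card_fin]
  rw [Finset.prod_congr rfl fun i _ => h2 i, Finset.prod_ite, Finset.prod_const_one, one_mul,
    Finset.prod_const]
  have h3 : ((Finset.univ : Finset (Fin K)).filter (fun i : Fin K => (i : ℕ) ∈ P)).card = P.card := by
    rw [← Finset.card_map Fin.valEmbedding]
    congr 1
    ext k
    rw [Finset.mem_map]
    constructor
    · rintro ⟨i, hi, rfl⟩
      exact (Finset.mem_filter.1 hi).2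
    · intro hk
      exact ⟨⟨k, hPK k hk⟩, Finset.mem_filter.2 ⟨Finset.mem_univ _, hk⟩, rfl⟩
  have h4 := Finset.card_filter_add_card_filter_not (s := (Finset.univ : Finset (Fin K)))
    (fun i : Fin K => (i : ℕ) ∈ P)
  rw [h3, Finset.card_univ, Fintype.card_fin] at h4
  rw [eq_div_iff (by positivity)]
  push_cast
  rw [← pow_add]
  congr 1
  omega

open Classical in
/-- comparison of the averages of the indicator of prescribed digits -/
theorem cmp {ι : Type} [Fintype ι] {b s N K K' : ℕ} {E : ℝ} {y : ℕ → ℝ} (h : Ind b s N K E y)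
    (hK : K' ≤ K) (hb : 1 ≤ b) (hE : 0 ≤ E) (hN : 1 ≤ N) (hcard : Fintype.card ι ≤ s) (k : ι → ℕ)
    (hk : ∀ i, k i < K') (c : ι → ℤ) (hc : ∀ i, 0 ≤ c i ∧ c i < b) :
    |((((Finset.range N).filter (fun m => ∀ i, dig b (y m) (k i + 1) = c i)).card : ℕ) : ℝ) / N -
      ((((Finset.univ : Finset (Fin K' → Fin b)).filter
        (fun v => ∀ i, wd v (k i) = c i)).card : ℕ) : ℝ) / (b : ℝ) ^ K'| ≤ E := by
  have hb' : (0 : ℝ) < b := by exact_mod_cast hb
  have hN' : (0 : ℝ) < N := by exact_mod_cast hN
  by_cases hcon : ∀ i j, k i = k j → c i = c j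
  · set P : Finset ℕ := Finset.univ.image k with hP
    set c' : ℕ → ℤ := fun q => if hq : ∃ i, k i = q then c hq.choose else 0 with hc'
    have hc'k : ∀ i, c' (k i) = c i := by
      intro i
      have hex : ∃ j, k j = k i := ⟨i, rfl⟩
      simp only [hc']
      rw [dif_pos hex]
      exact hcon _ _ hex.choose_spec
    have hPK : ∀ q ∈ P, q < K' := by
      intro q hq
      obtain ⟨i, -, rfl⟩ := Finset.mem_image.1 hq
      exact hk i
    have hcP : ∀ q ∈ P, 0 ≤ c' q ∧ c' q < b := by
      intro q hq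
      obtain ⟨i, -, rfl⟩ := Finset.mem_image.1 hq
      rw [hc'k]
      exact hc i
    have hPs : P.card ≤ s := Finset.card_image_le.trans (by rwa [Finset.card_univ])
    have h1 := ind_P h P hPs (fun q hq => (hPK q hq).trans_le hK) c' hcP
    have h2 := model_P (K := K') hb P hPK c' hcP
    have e1 : (Finset.range N).filter (fun m => ∀ i, dig b (y m) (k i + 1) = c i) =
        (Finset.range N).filter (fun m => ∀ q ∈ P, dig b (y m) (q + 1) = c' q) := by
      apply Finset.filter_congr
      intro m _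
      constructor
      · intro h3 q hq
        obtain ⟨i, -, rfl⟩ := Finset.mem_image.1 hq
        rw [hc'k]
        exact h3 i
      · intro h3 i
        have := h3 (k i) (Finset.mem_image_of_mem k (Finset.mem_univ i))
        rwa [hc'k] at this
    have e2 : (Finset.univ : Finset (Fin K' → Fin b)).filter (fun v => ∀ i, wd v (k i) = c i) =
        (Finset.univ : Finset (Fin K' → Fin b)).filter (fun v => ∀ q ∈ P, wd v q = c' q) := by
      apply Finset.filter_congr
      intro m _
      constructor
      · intro h3 q hq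
        obtain ⟨i, -, rfl⟩ := Finset.mem_image.1 hq
        rw [hc'k]
        exact h3 i
      · intro h3 i
        have := h3 (k i) (Finset.mem_image_of_mem k (Finset.mem_univ i))
        rwa [hc'k] at this
    rw [e1, e2, h2]
    have h3 : (b : ℝ) ^ K' / (b : ℝ) ^ P.card / (b : ℝ) ^ K' = ((N : ℝ) / (b : ℝ) ^ P.card) / N := by
      field_simp
    rw [h3, ← sub_div, abs_div, abs_of_pos hN', div_le_iff₀ hN']
    exact h1
  · push Not at hcon
    obtain ⟨i, j, hij, hcij⟩ := hcon
    have e1 : (Finset.range N).filter (fun m => ∀ i, dig b (y m) (k i + 1) = c i) = ∅ := by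
      apply Finset.filter_eq_empty_iff.2
      intro m _ h3
      apply hcij
      rw [← h3 i, ← h3 j, hij]
    have e2 : (Finset.univ : Finset (Fin K' → Fin b)).filter (fun v => ∀ i, wd v (k i) = c i) = ∅ := by
      apply Finset.filter_eq_empty_iff.2
      intro m _ h3
      apply hcij
      rw [← h3 i, ← h3 j, hij]
    rw [e1, e2]
    simpa using hE

end Pool.Agent.W349.NM
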